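import Pool.Agent.U208.SI.Final

/-!
# The exponent of the chromatic number of small-intersection graphs, up to a doubly logarithmic
factor

For a family `A` of `m` subsets of an `n`-set, each of size `> c n`, let `G(A, ε)` be the graph in
which two indices are adjacent if the sets meet in less than `ε n` points, and let
`χ*(n, m, c, ε)` be the largest chromatic number of these graphs.

**Theorem.** Let `0 < c < 1 / 2`. There are `κ, K > 0` and `ε₀ > 0` such that for all `0 < ε ≤ ε₀`, with
`L = log (1 / ε)`, all sufficiently large `m` and all `n ≥ M log m`, where `M` depends on `c` and `ε`,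

`m ^ (κ / (L log L)) ≤ χ*(n, m, c, ε) ≤ m ^ (K / L)`.

In particular this holds for `m = n` large.

Idea of the lower bound. The vertices are the points `v` of a grid in the cube `[-1, 1]^D` with
spacing about `η^(1/2) / 4`, where `η` is a small constant times `1 / L`. To a point `v` with
`|v|² ≥ r D` corresponds the half-space `⟨v, x⟩ > s D^(1/2)`, which has Gaussian measure `> c`, and two
points with `|u + v|² ≤ η D` have half-spaces whose intersection has measure at most
`exp (-2 s² / η) ≤ ε / 2`. The `n`-set is a random sample of points `x`. A set of grid points without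
such pairs has, together with the cells of the grid, Gaussian measure at most `exp (-η D / 32)` times
that of the cube, by the inequality of Prekopa and Leindler, so that at least a constant times
`exp (η D / 32)` colours are needed; the number of grid points is `exp (O (D log (1 / η)))`. The upper
bound is that of the starting result `Growth` (dependent random choice).
-/

set_option autoImplicit false

open Finset

namespace Pool.Agent.Results.MP_3a192b_co.ExponentUpToLogLog

/-- The graph `G(A, ε)`: distinct indices are adjacent iff the sets meet in less than `ε n`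
points. -/
def G {n m : ℕ} (A : Fin m → Finset (Fin n)) (ε : ℝ) : SimpleGraph (Fin m) where
  Adj i j := i ≠ j ∧ (((A i ∩ A j).card : ℝ) < ε * n)
  symm := ⟨fun i j h => ⟨h.1.symm, by rw [inter_comm]; exact h.2⟩⟩
  loopless := ⟨fun _ h => h.1 rfl⟩

open Classical in
/-- `χ*(n, m, c, ε)`: the largest chromatic number of `G(A, ε)` over all families of `m` subsets of
an `n`-set, each of size `> c n`. -/
noncomputable def chiStar (n m : ℕ) (c ε : ℝ) : ℕ :=
  (univ.filter (fun A : Fin m → Finset (Fin n) => ∀ k, c * n < ((A k).card : ℝ))).sup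
    (fun A => (G A ε).chromaticNumber.toNat)

/-- **Theorem.** For `0 < c < 1 / 2` and small `ε` the number `χ*(n, m, c, ε)` is between
`m ^ (κ / (L log L))` and `m ^ (K / L)`, `L = log (1 / ε)`, for all large `m` and `n ≥ M log m`. -/
theorem result (c : ℝ) (hc0 : 0 < c) (hc : c < 1 / 2) :
    ∃ κ K ε₀ : ℝ, 0 < κ ∧ 0 < K ∧ 0 < ε₀ ∧ ε₀ ≤ 1 / 16 ∧ ∀ ε : ℝ, 0 < ε → ε ≤ ε₀ →
      ∃ (M : ℝ) (m₀ : ℕ), 0 < M ∧ ∀ n m : ℕ, m₀ ≤ m → M * Real.log m ≤ n →
        (m : ℝ) ^ (κ / (Real.log (1 / ε) * Real.log (Real.log (1 / ε)))) ≤ chiStar n m c ε ∧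
          (chiStar n m c ε : ℝ) ≤ (m : ℝ) ^ (K / Real.log (1 / ε)) :=
  Pool.Agent.U208.SI.combine Pool.Agent.U208.SI.fin0_ok c hc0 hc

end Pool.Agent.Results.MP_3a192b_co.ExponentUpToLogLog
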